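import Pool.Agent.X104.PS.Main

/-!
# MP_83d99e_an: maximally singular solutions of the `p`-Laplace Dirichlet problem

For every `N ≥ 1`, every bounded open `Ω ⊆ ℝ^N` and every `p > 1`, the solution set
`X(Ω,p) = {u ∈ W_0^{1,p}(Ω) : -Δ_p u = F for some F ∈ L^{p'}(Ω)}` contains a maximally singular
function: the supremum of the Hausdorff dimensions of the singular sets is attained.

Proof: choose `u_n ∈ X(Ω,p)` with sources `F_n` whose singular dimensions tend to the supremum, let
`F = ∑ |c_n F_n| ∈ L^{p'}(Ω)` with `c_n = 2^{-n}/(1+‖F_n‖)`, and let `v` solve `-Δ_p v = F`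
(existence by minimisation). Since `c_n^{1/(p-1)} u_n` solves the equation with source
`c_n F_n ≤ F`, the weak comparison principle gives `c_n^{1/(p-1)} u_n ≤ v` a.e., so that
`Sing u_n ⊆ Sing v` for all `n`.

The definitions are in the helper modules `Pool.Agent.X104.PS.*`: `IsTest` (test functions), `W0`
(`u ∈ W_0^{1,p}(Ω)` with weak gradient `G`), `SolX` (the set `X(Ω,p)`), `Sing` (the singular set).
-/

set_option autoImplicit false

namespace Pool.Agent.Results.MP_83d99e_an.MaximallySingular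

open Pool.Agent.X104.PS

/-- For every dimension `N ≥ 1`, bounded open `Ω ⊆ ℝ^N` and `p > 1` there is `v ∈ X(Ω,p)` with
`dim_H (Sing v) = sup {dim_H (Sing u) : u ∈ X(Ω,p)}`. -/
theorem result : ∀ N : ℕ, 1 ≤ N → ∀ Ω : Set (EuclideanSpace ℝ (Fin N)), IsOpen Ω →
    Bornology.IsBounded Ω → ∀ p : ℝ, 1 < p →
    ∃ v ∈ SolX Ω p, dimH (Sing Ω v) = ⨆ u ∈ SolX Ω p, dimH (Sing Ω u) := by
  intro N hN Ω hΩ hb p hp
  obtain ⟨v, hv, h⟩ := main_max (Nat.lt_of_lt_of_le Nat.zero_lt_one hN) hΩ hb hp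
  exact ⟨v, hv, le_antisymm (le_iSup₂ (f := fun u _ => dimH (Sing Ω u)) v hv) (iSup₂_le h)⟩

end Pool.Agent.Results.MP_83d99e_an.MaximallySingular
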